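import Pool.Agent.Lib.MP_06671c_ag.Calc

/-!
# MP_06671c_ag: Calabi-Yau threefolds in projective 6-space cut out by equations of low degree
-/

namespace Pool.Agent.Results.MP_06671c_ag.CutOutDegree

open Pool.Agent.MP_06671c

/-- The bound for the degree of `X`, if `X` lies on a hypersurface of degree `a` and is the
scheme-theoretic intersection of hypersurfaces of degree at most `k`. -/
def maxDegree : ℕ → ℕ → ℕ
  | 3, 3 => 14
  | 3, 4 => 16
  | 4, 4 => 17
  | 3, 5 => 19
  | 4, 5 => 21
  | 5, 5 => 23
  | 3, 6 => 24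
  | 4, 6 => 27
  | 5, 6 => 29
  | 6, 6 => 31
  | 3, 7 => 28
  | 4, 7 => 33
  | 5, 7 => 37
  | 6, 7 => 39
  | 3, 8 => 34
  | 4, 8 => 40
  | _, _ => 41

/-- Let `V` be the data of a Calabi-Yau threefold `X` of degree `d` in `ℙ⁶` and `W` the data of the
blow-up of `ℙ⁶` along `X`. Suppose that the intersection numbers `(k h - e)^i h^(6-i)`, `i ≤ 6`, and
`(k h - e)^i h^(5-i) (a h - e)`, `i ≤ 5`, are nonnegative; this holds if `X` lies on a hypersurface
of degree `a` and is the scheme-theoretic intersection of hypersurfaces of degree at most `k`. Then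
`k ≥ 3` and `d ≤ maxDegree a k`. -/
theorem result {A : Type} [CommRing A] [Algebra ℚ A] (V : CY A)
    {B : Type} [CommRing B] [Algebra ℚ B] (W : BlowUp V B) (a k : ℕ) (hk : W.Nonneg k)
    (ha : W.NonnegOn k a) : 3 ≤ k ∧ V.d ≤ maxDegree a k := by
  have h41 := d_le V
  have hpos := V.hpos
  have k3 : 0 ≤ (k : ℤ) ^ 3 - V.d := by
    have h := hk 3 (by norm_num)
    rw [third_self W k] at h
    exact_mod_cast h
  have k5 : 0 ≤ (k : ℤ) ^ 5 - 10 * k ^ 2 * V.d + 35 * k * V.d - 26 * V.d - 84 := by
    have h := hk 5 (by norm_num)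
    norm_num at h
    rw [fifth_self W k] at h
    exact_mod_cast h
  have k6 : 0 ≤ (k : ℤ) ^ 6 - 20 * k ^ 3 * V.d + 105 * k ^ 2 * V.d - 6 * k * (26 * V.d + 84) +
      (V.d : ℤ) ^ 2 + 21 * V.d + 1176 -
      ((k : ℤ) - a) * ((k : ℤ) ^ 5 - 10 * k ^ 2 * V.d + 35 * k * V.d - 26 * V.d - 84) := by
    have h := ha 5 le_rfl
    rw [Nat.sub_self, pow_zero, mul_one, mixed_top W k a, top_self W k, fifth_self W k] at h
    exact_mod_cast h
  clear hk ha
  generalize V.d = d at *
  refine ⟨?_, ?_⟩
  · by_contra hcon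
    have h1 : k ≤ 2 := by omega
    clear k6
    interval_cases k
    · norm_num at k3
      omega
    · norm_num at k3 k5
      have : d ≤ 1 := by omega
      interval_cases d
      norm_num at k5
    · norm_num at k3 k5
      omega
  · unfold maxDegree
    split
    · norm_num at k5
      omega
    all_goals first
      | exact h41
      | (clear k3 k5
         by_contra hcon
         rw [not_le] at hcon
         interval_cases d <;> revert k6 <;> norm_num)

end Pool.Agent.Results.MP_06671c_ag.CutOutDegree
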