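import Pool.Agent.Lib.MP_06671c_ag.Calc

/-!
# MP_06671c_ag: hypersurfaces of low degree through Calabi-Yau threefolds in projective 6-space
-/

namespace Pool.Agent.Results.MP_06671c_ag.SingularPoints

open Pool.Agent.MP_06671c

private theorem smooth_aux (k d : ℕ) (hk : 1 ≤ k) (hd : 1 ≤ d) (hd' : d ≤ 41)
    (h : (k : ℤ) * (k ^ 2 - 7 * k + 23) * d - 84 * k - (d : ℤ) ^ 2 = 0) :
    (k, d) = (2, 12) ∨ (k, d) = (2, 14) ∨ (k, d) = (3, 12) ∨ (k, d) = (3, 21) := by
  have hk20 : k < 20 := by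
    by_contra hcon
    have h1 : (20 : ℤ) ≤ k := by exact_mod_cast not_lt.1 hcon
    have h2 : (1 : ℤ) ≤ d := by exact_mod_cast hd
    have h3 : (d : ℤ) ≤ 41 := by exact_mod_cast hd'
    have h4 : (283 : ℤ) ≤ (k : ℤ) ^ 2 - 7 * k + 23 := by nlinarith
    have h5 : (283 : ℤ) * d ≤ ((k : ℤ) ^ 2 - 7 * k + 23) * d := by nlinarith
    have h6 : (0 : ℤ) ≤ ((k : ℤ) ^ 2 - 7 * k + 23) * d - 84 := by nlinarith
    have h7 : (20 : ℤ) * (((k : ℤ) ^ 2 - 7 * k + 23) * d - 84) ≤
        k * (((k : ℤ) ^ 2 - 7 * k + 23) * d - 84) := by nlinarith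
    nlinarith
  interval_cases k <;> interval_cases d <;> first | (exfalso; revert h; norm_num; done) | simp

/-- Let `V` be the data of a Calabi-Yau threefold `X` of degree `d` in `ℙ⁶`, `k ≥ 1`, and suppose
that `c3(N^∨(k)) ≥ 0`. This holds if some hypersurface of degree `k` contains `X` and has only
finitely many singular points on `X`; their number, counted with multiplicity, is `c3(N^∨(k))`.
Then `k ≥ 2`; `12 ≤ d ≤ 14` if `k = 2`; `12 ≤ d ≤ 21` if `k = 3`; `10 ≤ d ≤ 34` if `k = 4`; and if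
`c3(N^∨(k)) = 0` (no singular points on `X`), then `(k, d)` is `(2, 12)`, `(2, 14)`, `(3, 12)` or
`(3, 21)`. -/
theorem result {A : Type} [CommRing A] [Algebra ℚ A] (V : CY A) (k : ℕ) (hk : 1 ≤ k)
    (h : 0 ≤ V.deg (V.twistedTop k)) :
    2 ≤ k ∧ (k = 2 → 12 ≤ V.d ∧ V.d ≤ 14) ∧ (k = 3 → 12 ≤ V.d ∧ V.d ≤ 21) ∧
      (k = 4 → 10 ≤ V.d ∧ V.d ≤ 34) ∧
      (V.deg (V.twistedTop k) = 0 →
        (k, V.d) = (2, 12) ∨ (k, V.d) = (2, 14) ∨ (k, V.d) = (3, 12) ∨ (k, V.d) = (3, 21)) := by
  have h41 := d_le V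
  have hpos := V.hpos
  rw [deg_twistedTop] at h ⊢
  have h1 : 0 ≤ (k : ℤ) * (k ^ 2 - 7 * k + 23) * V.d - 84 * k - (V.d : ℤ) ^ 2 := by
    exact_mod_cast h
  clear h
  refine ⟨?_, ?_, ?_, ?_, fun h => smooth_aux k V.d hk hpos h41 (by exact_mod_cast h)⟩ <;>
    generalize V.d = d at *
  · by_contra hcon
    have h2 : k = 1 := by omega
    subst h2
    norm_num at h1
    nlinarith [sq_nonneg (2 * (d : ℤ) - 17)]
  · rintro rfl
    norm_num at h1
    constructor
    · by_contra hcon
      have h2 : d < 12 := by omega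
      interval_cases d <;> revert h1 <;> norm_num
    · by_contra hcon
      have h2 : 15 ≤ d := by omega
      interval_cases d <;> revert h1 <;> norm_num
  · rintro rfl
    norm_num at h1
    constructor
    · by_contra hcon
      have h2 : d < 12 := by omega
      interval_cases d <;> revert h1 <;> norm_num
    · by_contra hcon
      have h2 : 22 ≤ d := by omega
      interval_cases d <;> revert h1 <;> norm_num
  · rintro rfl
    norm_num at h1
    constructor
    · by_contra hcon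
      have h2 : d < 10 := by omega
      interval_cases d <;> revert h1 <;> norm_num
    · by_contra hcon
      have h2 : 35 ≤ d := by omega
      interval_cases d <;> revert h1 <;> norm_num

end Pool.Agent.Results.MP_06671c_ag.SingularPoints
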